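import Pool.Agent.W36.JL.K6

set_option autoImplicit false

/-!
The joint law of the total stopping times of the `3x+1` function along linear forms.

The total stopping times at the values of pairwise independent affine linear forms in several integer
variables (for example at the terms `u, u + v, u + 2 v, ...` of an arithmetic progression, jointly in `u`
and `v`) are asymptotically independent, also on the points that survive a sieve: the values of the forms
are at the same time in the basin of `1`, with total stopping times in given residue classes and below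
the thresholds `bound (x i)`, with the relative frequency given by the product of the one dimensional
densities `δ * Phi (x i) / m`, where `δ` is the natural density of the integers with finite total
stopping time and `Phi` is the distribution function of the standard normal law. Here the conditions of
the sieve can be arbitrary conditions on the variables modulo primes up to a small power of `X`, for
example the condition that no value of the forms has a small prime factor, and the variables can be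
restricted to a residue class to an odd modulus up to a small power of `X`; the error is small relative
to the expected number of the surviving points. In particular every admissible system of pairwise
independent forms has, simultaneously, almost prime values whose total stopping times are in given
residue classes and deviate from the mean `2 / log (4 / 3) * log n` by given amounts in units of the
standard deviation.
-/

namespace Pool.Agent.Results.MP_a1568a_nt.JointLaw

open Filter Topology

/-- the `3x+1` function -/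
def T (n : ℕ) : ℕ := if n % 2 = 0 then n / 2 else (3 * n + 1) / 2

/-- `t` is the total stopping time of `n` -/
def IsTotalStoppingTime (n t : ℕ) : Prop := T^[t] n = 1 ∧ ∀ j < t, T^[j] n ≠ 1

/-- the positive integers with the property `P` have the natural density `δ` -/
def HasDensity (P : ℕ → Prop) (δ : ℝ) : Prop :=
  Tendsto (fun N : ℕ => ({n : ℕ | 1 ≤ n ∧ n ≤ N ∧ P n}.ncard : ℝ) / N) atTop (𝓝 δ)

/-- `2 / log (4/3) * log n + x * log 3 * √(2 log n / (log (4/3))^3)` -/
noncomputable def bound (x : ℝ) (n : ℕ) : ℝ :=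
  2 / Real.log (4 / 3) * Real.log n
    + x * (Real.log 3 * Real.sqrt (2 * Real.log n / Real.log (4 / 3) ^ 3))

/-- The distribution function of the standard normal law. -/
noncomputable def Phi (x : ℝ) : ℝ :=
  ProbabilityTheory.cdf (ProbabilityTheory.gaussianReal 0 1) x

/-- The positive integers with a finite total stopping time which is at most `bound x n` and congruent
to `a` modulo `m`. -/
def Level (m : ℕ) (a : ℤ) (x : ℝ) : Set ℤ :=
  {n : ℤ | 0 < n ∧ ∃ t : ℕ, (t : ℝ) ≤ bound x n.toNat ∧ IsTotalStoppingTime n.toNat t ∧ (t : ℤ) ≡ a [ZMOD m]}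

/-- A sieve problem in `D` variables: the classes in `Ω p` are to be removed for the primes `p ∈ Q`, and
the variables are `ρ` modulo `q`. -/
structure Sieve (D : ℕ) where
  Q : Finset ℕ
  Ω : (p : ℕ) → Set (Fin D → ZMod p)
  q : ℕ
  ρ : Fin D → ℤ

/-- The elements of `Q` are primes up to `z`, for each of them `Ω p` consists of at most `κ p ^ (D - 1)` of
the `p ^ D` classes, the modulus `q` is odd, at most `z`, and divisible by none of them. -/
def Sieve.Valid {D : ℕ} (w : Sieve D) (κ : ℕ) (z : ℝ) : Prop :=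
  (∀ p ∈ w.Q, p.Prime ∧ (p : ℝ) ≤ z ∧ ¬ p ∣ w.q ∧ (w.Ω p).ncard * p ≤ κ * p ^ D) ∧ w.q % 2 = 1 ∧ (w.q : ℝ) ≤ z

/-- The point `v` survives: modulo the primes of `Q` it is not in the sets `Ω p`, and it is `ρ` modulo `q`. -/
def Sieve.Passes {D : ℕ} (w : Sieve D) (v : Fin D → ℤ) : Prop :=
  (∀ p ∈ w.Q, (fun j => (v j : ZMod p)) ∉ w.Ω p) ∧ ∀ j, (w.q : ℤ) ∣ v j - w.ρ j

/-- The expected density of the surviving points. -/
noncomputable def Sieve.dens {D : ℕ} (w : Sieve D) : ℝ := (∏ p ∈ w.Q, (1 - ((w.Ω p).ncard : ℝ) / (p : ℝ) ^ D)) / (w.q : ℝ) ^ D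

/-- The number of the surviving points `v` of the box `∏ (P j, P' j]` such that, for every `i`, the value
`Λ i • v + c i` of the `i`-th form is in `S i` and in the interval `(M i, N i]`. -/
noncomputable def Points {D r : ℕ} (Λ : Fin r → Fin D → ℤ) (c : Fin r → ℤ) (M N : Fin r → ℕ) (P P' : Fin D → ℤ)
    (w : Sieve D) (S : Fin r → Set ℤ) : ℕ :=
  {v : Fin D → ℤ | (∀ j, P j < v j ∧ v j ≤ P' j) ∧ w.Passes v ∧ ∀ i, (∑ j, Λ i j * v j + c i) ∈ S i ∧
    (M i : ℤ) < ∑ j, Λ i j * v j + c i ∧ ∑ j, Λ i j * v j + c i ≤ N i}.ncard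

open Pool.Agent.W36.JL Pool.Agent.W36.GK
open Pool.Agent.W36.GS (pts sgq sg rd VV VV_nonneg)

theorem level_eq (m : ℕ) (a : ℤ) (x : ℝ) : Level m a x = SX m a x := rfl

theorem points_eq {D r : ℕ} (Λ : Fin r → Fin D → ℤ) (c : Fin r → ℤ) (M N : Fin r → ℕ) (P P' : Fin D → ℤ)
    (w : Sieve D) (S : Fin r → Set ℤ) :
    (Points Λ c M N P P' w S : ℝ) = ∑ x ∈ pts Λ c (fun _ => 1) M N P P' S, sgq w.q (rd w.q w.ρ) w.Q w.Ω x := by
  classical
  have hcl : ∀ x : Fin D → ℤ, (∀ j, (w.q : ℤ) ∣ x j - w.ρ j) ↔ rd w.q x = rd w.q w.ρ := by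
    intro x
    rw [funext_iff]
    apply forall_congr'
    intro j
    unfold rd
    rw [← ZMod.intCast_zmod_eq_zero_iff_dvd, Int.cast_sub, sub_eq_zero]
  have e1 : ∀ x, sgq w.q (rd w.q w.ρ) w.Q w.Ω x = if w.Passes x then 1 else 0 := by
    intro x
    unfold sgq sg Sieve.Passes
    rw [hcl]
    by_cases h1 : rd w.q x = rd w.q w.ρ
    · by_cases h2 : ∀ p ∈ w.Q, rd p x ∉ w.Ω p
      · rw [if_pos h1, if_pos h2, if_pos ⟨h2, h1⟩]
      · rw [if_pos h1, if_neg h2, if_neg (fun h3 => h2 h3.1)]
    · rw [if_neg h1, if_neg (fun h3 => h1 h3.2)]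
  simp only [e1]
  rw [← Finset.sum_filter, Finset.sum_const, nsmul_eq_mul, mul_one]
  unfold Points
  have e2 : {x : Fin D → ℤ | (∀ j, P j < x j ∧ x j ≤ P' j) ∧ w.Passes x ∧ ∀ i, (∑ j, Λ i j * x j + c i) ∈ S i ∧
    (M i : ℤ) < ∑ j, Λ i j * x j + c i ∧ ∑ j, Λ i j * x j + c i ≤ N i} =
      ((pts Λ c (fun _ => 1) M N P P' S).filter (fun x => w.Passes x) : Set (Fin D → ℤ)) := by
    ext x
    unfold pts
    rw [Finset.coe_filter]
    simp only [Set.mem_ofPred_eq, Finset.mem_filter, mem_box, one_mul]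
    constructor
    · rintro ⟨a, b, c⟩; exact ⟨⟨a, c⟩, b⟩
    · rintro ⟨⟨a, c⟩, b⟩; exact ⟨a, b, c⟩
  rw [e2, Set.ncard_coe_finset]

theorem dens_eq {D : ℕ} (w : Sieve D) : w.dens = VV w.Q w.Ω / (w.q : ℝ) ^ D := rfl

/-- THE JOINT LAW OF THE TOTAL STOPPING TIMES. The integers with finite total stopping time have a
positive natural density `δ`. For every system of linear forms any two of which are linearly independent,
`κ`, `m ≥ 1`, residues `a i`, real numbers `x i` and `ε > 0` there are `θ > 0` and `X₀` such that for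
`X ≥ X₀` and every sieve of dimension `κ` with primes and modulus at most `X ^ θ` the number of the
surviving integral points `v` of a box of side at most `X` for which the values `Λ i • v + c i` are in
the intervals `(M i, N i]`, `N i ≤ X`, and have finite total stopping times congruent to `a i` modulo `m`
and at most `bound (x i)` of the value, is `∏ i, δ * Phi (x i) / m` times the number of the surviving
points of the box with values in the intervals, up to `ε` times the expected number of the surviving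
points of a box of side `X`; uniformly in the constant terms, intervals and boxes.

If moreover no prime divides the product of the forms identically and the forms are all positive at some
point, then for real numbers `y i < x i` there is `A` such that for every odd `q`, every class `ρ` modulo
`q` at which no form is divisible by the full power of a prime in `q`, and every `X ≥ A q ^ A`, at least
`X ^ D' / (q ^ D' (log X) ^ A)` points of the class (`D'` is the number of variables) have coordinates in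
`(-X, X]` and are such that the values of the forms are positive, at most `X`, have at most `A` prime
factors apart from those of the greatest common divisor with `q`, and have finite total stopping times
congruent to `a i` modulo `m`, larger than `bound (y i)` and at most `bound (x i)` of the value. -/
theorem result : ∃ δ : ℝ, 0 < δ ∧ δ ≤ 1 ∧ (δ = 1 ↔ ∀ n : ℕ, 1 ≤ n → ∃ k, T^[k] n = 1) ∧
    HasDensity (fun n => ∃ k, T^[k] n = 1) δ ∧
    (∀ (D r κ m : ℕ), 1 ≤ m → ∀ Λ : Fin r → Fin (D + 1) → ℤ, (∀ i, Λ i ≠ 0) →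
      (∀ i j, i ≠ j → ∀ a b : ℤ, a • Λ i = b • Λ j → a = 0 ∧ b = 0) →
      ∀ (a : Fin r → ℤ) (x : Fin r → ℝ) (ε : ℝ), 0 < ε → ∃ θ : ℝ, 0 < θ ∧ ∃ X₀ : ℕ, ∀ X : ℕ, X₀ ≤ X →
      ∀ w : Sieve (D + 1), w.Valid κ ((X : ℝ) ^ θ) →
      ∀ c : Fin r → ℤ, ∀ M N : Fin r → ℕ, (∀ i, M i ≤ N i) → (∀ i, N i ≤ X) →
      ∀ P P' : Fin (D + 1) → ℤ, (∀ j, P' j - P j ≤ X) →
        |(Points Λ c M N P P' w (fun i => Level m (a i) (x i)) : ℝ) -
          (∏ i, δ * Phi (x i) / m) * Points Λ c M N P P' w (fun _ => Set.univ)| ≤ ε * w.dens * X ^ (D + 1)) ∧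
    (∀ (D r m : ℕ), 1 ≤ m → ∀ Λ : Fin r → Fin (D + 1) → ℤ,
      (∀ i j, i ≠ j → ∀ a b : ℤ, a • Λ i = b • Λ j → a = 0 ∧ b = 0) →
      (∀ p : ℕ, p.Prime → ∃ u : Fin (D + 1) → ℤ, ∀ i, ¬ (p : ℤ) ∣ ∑ j, Λ i j * u j) →
      (∃ u : Fin (D + 1) → ℤ, ∀ i, 0 < ∑ j, Λ i j * u j) →
      ∀ (a : Fin r → ℤ) (x y : Fin r → ℝ), (∀ i, y i < x i) → ∃ A : ℕ, ∀ q : ℕ, q % 2 = 1 → ∀ ρ : Fin (D + 1) → ℤ,
      (∀ i, ∀ p : ℕ, p.Prime → p ∣ q → ¬ ((p ^ q.factorization p : ℕ) : ℤ) ∣ ∑ j, Λ i j * ρ j) →
      ∀ X : ℕ, A * q ^ A ≤ X → (X : ℝ) ^ (D + 1) ≤ (q : ℝ) ^ (D + 1) * Real.log X ^ A *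
        ({v : Fin (D + 1) → ℤ | (∀ j, -(X : ℤ) < v j ∧ v j ≤ X ∧ (q : ℤ) ∣ v j - ρ j) ∧
          ∀ i, (∑ j, Λ i j * v j) ∈ Level m (a i) (x i) \ Level m (a i) (y i) ∧ 0 < ∑ j, Λ i j * v j ∧ ∑ j, Λ i j * v j ≤ X ∧
            ArithmeticFunction.cardFactors ((∑ j, Λ i j * v j).natAbs / Nat.gcd (∑ j, Λ i j * v j).natAbs q) ≤ A}.ncard : ℝ)) := by
  obtain ⟨δ, h0, h1, h2, h3, h4⟩ := lawE
  refine ⟨δ, h0, h1, h2, h3, fun D r κ m hm Λ hΛ0 hΛ a x ε hε => ?_, fun D r m hm Λ hΛ hadm hu a x y hxy => ?_⟩
  · obtain ⟨θ, hθ, X0, h5⟩ := jointS (κ := κ) hm h0 h1 (fun a x => h4 m a hm x) hΛ0 hΛ a x hε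
    refine ⟨θ, hθ, X0, fun X hX w hw c M N hM hN P P' hP => ?_⟩
    have h6 := h5 X hX w.Q (fun p hp => ⟨(hw.1 p hp).1, (hw.1 p hp).2.1⟩) w.Ω (fun p hp => (hw.1 p hp).2.2.2) w.q hw.2.1 hw.2.2
      (fun p hp => (hw.1 p hp).2.2.1) (rd w.q w.ρ) c M N hM hN P P' hP
    rw [points_eq, points_eq, dens_eq]
    simp only [Pool.Agent.H499R2.ND.phi_cdf] at h6
    exact h6
  · obtain ⟨u, hu⟩ := hu
    exact patternsJ hm h0 h1 (fun a x => h4 m a hm x) hΛ hadm hu a hxy (fun i => SX_mono (hxy i).le)

end Pool.Agent.Results.MP_a1568a_nt.JointLaw
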