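import Pool.Agent.W33.Coll.Main

set_option autoImplicit false

/-!
From almost all to all, with a power saving: the logarithmic bound for the total stopping times of the
`3x+1` function holds for all integers as soon as it holds, in runs of any fixed length, outside a
power-saving set of exceptions; and it then holds with any constant larger than `2 / log (4/3)` outside
a power-saving set of exceptions.
-/

namespace Pool.Agent.Results.MP_a1568a_nt.PowerSavingTransfer

open Filter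

/-- The `3x+1` function. -/
def T (n : ℕ) : ℕ := if n % 2 = 0 then n / 2 else (3 * n + 1) / 2

/-- The total stopping time of `n` is at most `c log n`: one of the iterates `T^k n`, `k ≤ c log n`,
is `1`. -/
def Fast (c : ℝ) (n : ℕ) : Prop := ∃ k : ℕ, (k : ℝ) ≤ c * Real.log n ∧ T^[k] n = 1

/-- The number of the integers `n`, `1 ≤ n ≤ x`, in `R`, such that all the `H` integers
`n, n + 1, ..., n + H - 1` have total stopping time larger than `c` times their logarithm. -/
noncomputable def slowRuns (R : Set ℕ) (c : ℝ) (H : ℕ) (x : ℝ) : ℕ :=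
  {n : ℕ | 1 ≤ n ∧ (n : ℝ) ≤ x ∧ n ∈ R ∧ ∀ h < H, ¬ Fast c (n + h)}.ncard

/-- `f x ≤ x ^ (1 - δ)` for all large `x`. -/
def PowerSaving (δ : ℝ) (f : ℝ → ℕ) : Prop := ∃ X : ℝ, ∀ x : ℝ, X ≤ x → (f x : ℝ) ≤ x ^ (1 - δ)

theorem bad_eq (R : Set ℕ) (c : ℝ) (H : ℕ) (x : ℝ) :
    slowRuns R c H x = (Pool.Agent.W33.Coll.Bad R c H x).ncard := rfl

theorem slowRuns_mono {R : Set ℕ} {c c' : ℝ} (h : c ≤ c') (H : ℕ) (x : ℝ) :
    slowRuns R c' H x ≤ slowRuns R c H x := by
  rw [bad_eq, bad_eq]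
  apply Set.ncard_le_ncard _ (Pool.Agent.W33.Coll.Bad_finite R c H x)
  rintro n ⟨h1, h2, h3, h4⟩
  exact ⟨h1, h2, h3, fun k hk hf => h4 k hk (Pool.Agent.W33.Coll.fast_mono h hf)⟩

/-- Let `R` be a set of positive integers with `n ∈ R ↔ T n ∈ R` (for instance the set of all positive
integers, or of those which reach `1`) and let `μ = 2 / log (4/3)`.

(1) If `μ < c`, `0 < δ ≤ 1`, and for all large `x` all but at most `x ^ (1 - δ)` of the `n ≤ x` in `R`
have a neighbour `n + h`, `0 ≤ h < H`, with total stopping time at most `c log (n + h)`, then for every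
`ε > 0` all large `n ∈ R` have total stopping time at most `(μ + (c - μ) / δ + ε) log n`.

(2) If every large `n ∈ R` has a neighbour `n + h`, `0 ≤ h < H`, with total stopping time at most
`c log (n + h)`, then for every `ε > 0` all large `n ∈ R` have total stopping time at most
`(c + ε) log n`.

(3) Equivalent are: (a) for some `C` all `n ≥ 2` in `R` have total stopping time at most `C log n`;
(b) the hypothesis of (1) for some `c`, `δ > 0`, `H`; (c) for every `c > μ` there is `δ > 0` such that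
for all large `x` all but at most `x ^ (1 - δ)` of the `n ≤ x` in `R` have total stopping time at most
`c log n`. -/
theorem result (R : Set ℕ) (hR : ∀ n : ℕ, 1 ≤ n → (n ∈ R ↔ T n ∈ R)) :
    (∀ (c δ : ℝ) (H : ℕ), 2 / Real.log (4 / 3) < c → 0 < δ → δ ≤ 1 →
      PowerSaving δ (slowRuns R c H) → ∀ ε : ℝ, 0 < ε → ∃ N : ℕ, ∀ n : ℕ, N ≤ n → n ∈ R →
        Fast (2 / Real.log (4 / 3) + (c - 2 / Real.log (4 / 3)) / δ + ε) n) ∧
    (∀ (c : ℝ) (H : ℕ), 2 / Real.log (4 / 3) < c →
      (∃ N₀ : ℕ, ∀ n : ℕ, N₀ ≤ n → n ∈ R → ∃ h < H, Fast c (n + h)) →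
      ∀ ε : ℝ, 0 < ε → ∃ N : ℕ, ∀ n : ℕ, N ≤ n → n ∈ R → Fast (c + ε) n) ∧
    [∃ C : ℝ, ∀ n : ℕ, 2 ≤ n → n ∈ R → Fast C n,
      ∃ (c δ : ℝ) (H : ℕ), 0 < δ ∧ PowerSaving δ (slowRuns R c H),
      ∀ c : ℝ, 2 / Real.log (4 / 3) < c → ∃ δ : ℝ, 0 < δ ∧ PowerSaving δ (slowRuns R c 1)].TFAE := by
  have hR' : Pool.Agent.W33.Coll.Inv R := hR
  have part1 : ∀ (c δ : ℝ) (H : ℕ), 2 / Real.log (4 / 3) < c → 0 < δ → δ ≤ 1 →
      PowerSaving δ (slowRuns R c H) → ∀ ε : ℝ, 0 < ε → ∃ N : ℕ, ∀ n : ℕ, N ≤ n → n ∈ R →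
        Fast (2 / Real.log (4 / 3) + (c - 2 / Real.log (4 / 3)) / δ + ε) n :=
    fun c δ H hc h0 h1 hs ε hε => Pool.Agent.W33.Coll.transfer hR' hc h0 h1 hε hs
  refine ⟨part1, ?_, ?_⟩
  · intro c H hc hN ε hε
    obtain ⟨N₀, hN₀⟩ := hN
    set μ := 2 / Real.log (4 / 3) with hμ
    have hcμ : 0 < c - μ := by linarith
    -- choose `δ < 1`
    set δ := (c - μ) / (c - μ + ε / 2) with hδ
    have hδ0 : 0 < δ := by positivity
    have hδ1 : δ < 1 := by
      rw [hδ, div_lt_one (by positivity)]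
      linarith
    have hval : (c - μ) / δ = c - μ + ε / 2 := by
      rw [hδ]
      field_simp
    have hps : PowerSaving δ (slowRuns R c H) := by
      have h1 := (tendsto_rpow_atTop (show 0 < 1 - δ by linarith)).eventually_ge_atTop (N₀ : ℝ)
      obtain ⟨X, hX⟩ := eventually_atTop.1 h1
      refine ⟨X, fun x hx => le_trans ?_ (hX x hx)⟩
      have hsub : {n : ℕ | 1 ≤ n ∧ (n : ℝ) ≤ x ∧ n ∈ R ∧ ∀ h < H, ¬ Fast c (n + h)} ⊆
          ((Finset.range N₀ : Finset ℕ) : Set ℕ) := by
        rintro n ⟨h2, _, h3, h4⟩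
        rw [Finset.mem_coe, Finset.mem_range]
        by_contra hcon
        obtain ⟨h, hh, hf⟩ := hN₀ n (by omega) h3
        exact h4 h hh hf
      have h2 := Set.ncard_le_ncard hsub (Finset.finite_toSet _)
      rw [Set.ncard_coe_finset, Finset.card_range] at h2
      exact_mod_cast h2
    obtain ⟨N, h⟩ := part1 c δ H hc hδ0 hδ1.le hps (ε / 2) (half_pos hε)
    refine ⟨N, fun n hn hnR => Pool.Agent.W33.Coll.fast_mono (le_of_eq ?_) (h n hn hnR)⟩
    rw [hval]
    ring
  · tfae_have 1 → 3 := by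
      rintro ⟨C, hC⟩ c hc
      obtain ⟨δ, hδ, X, hX⟩ := Pool.Agent.W33.Coll.saving hR' hC hc
      refine ⟨δ, hδ, X, fun x hx => le_trans (le_of_eq ?_) (hX x hx)⟩
      unfold slowRuns
      congr 3
      ext n
      constructor
      · rintro ⟨h1, h2, h3, h4⟩
        exact ⟨h1, h2, h3, h4 0 (by norm_num)⟩
      · rintro ⟨h1, h2, h3, h4⟩
        refine ⟨h1, h2, h3, fun h hh => ?_⟩
        have : h = 0 := by omega
        rw [this]
        exact h4
    tfae_have 3 → 2 := by
      intro h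
      obtain ⟨δ, hδ, hp⟩ := h (2 / Real.log (4 / 3) + 1) (by linarith)
      exact ⟨_, δ, 1, hδ, hp⟩
    tfae_have 2 → 1 := by
      rintro ⟨c, δ, H, hδ, X, hX⟩
      have hps : PowerSaving (min δ 1) (slowRuns R (max c (2 / Real.log (4 / 3) + 1)) H) := by
        refine ⟨max X 1, fun x hx => ?_⟩
        have h1 := hX x (le_trans (le_max_left _ _) hx)
        have hx1 : 1 ≤ x := le_trans (le_max_right _ _) hx
        have h2 : (slowRuns R (max c (2 / Real.log (4 / 3) + 1)) H x : ℝ) ≤ slowRuns R c H x := by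
          exact_mod_cast slowRuns_mono (le_max_left _ _) H x
        refine (h2.trans h1).trans (Real.rpow_le_rpow_of_exponent_le hx1 ?_)
        have := min_le_left δ 1
        linarith
      obtain ⟨N, hN⟩ := part1 _ _ H (lt_of_lt_of_le (by linarith) (le_max_right _ _))
        (lt_min hδ one_pos) (min_le_right _ _) hps 1 one_pos
      exact Pool.Agent.W33.Coll.all_fast hR' hN
    tfae_finish

end Pool.Agent.Results.MP_a1568a_nt.PowerSavingTransfer
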